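import Mathlib

set_option autoImplicit false

/-! Permutations with few cycles, and their roots; the number of conjugacy classes. -/

namespace Pool.Agent.R813.EQ

open Finset Equiv Equiv.Perm

/-- number of cycles, computed from the decomposition -/
def cyc : (n : ℕ) → Perm (Fin n) → ℕ
  | 0, _ => 0
  | n + 1, y => cyc n (decomposeFin y).2 + if (decomposeFin y).1 = 0 then 1 else 0

theorem sum_cyc (n : ℕ) : ((∑ y : Perm (Fin n), cyc n y : ℕ) : ℚ) = n.factorial * harmonic n := by
  induction n with
  | zero => simp [cyc]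
  | succ n ih =>
    have h1 : ∑ y : Perm (Fin (n + 1)), cyc (n + 1) y = (n + 1) * ∑ e : Perm (Fin n), cyc n e +
        n.factorial := by
      rw [← Equiv.sum_comp decomposeFin.symm, Fintype.sum_prod_type]
      simp only [cyc, apply_symm_apply, sum_add_distrib, sum_const, card_univ, Fintype.card_fin,
        smul_eq_mul]
      congr 1
      rw [sum_eq_single 0]
      · simp [Fintype.card_perm]
      · intro p _ hp; simp [hp]
      · simp
    rw [h1]
    push_cast
    rw [harmonic_succ, Nat.factorial_succ]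
    push_cast at ih ⊢
    rw [ih]
    have : ((n : ℚ) + 1) ≠ 0 := by positivity
    field_simp

theorem sameCycle_step {n : ℕ} (p : Fin (n + 1)) (e : Perm (Fin n)) (x : Fin n) :
    (decomposeFin.symm (p, e)).SameCycle x.succ (e x).succ := by
  set y := decomposeFin.symm (p, e) with hy
  have h1 : y x.succ = swap 0 p (e x).succ := decomposeFin_symm_apply_succ _ _ _
  have h0 : y 0 = p := decomposeFin_symm_apply_zero _ _
  by_cases h : (e x).succ = p
  · refine ⟨2, ?_⟩
    rw [h, swap_apply_right] at h1
    show (y ^ (2 : ℤ)) x.succ = _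
    rw [show (2 : ℤ) = ((2 : ℕ) : ℤ) by norm_num, zpow_natCast, pow_two, Perm.mul_apply, h1, h0, h]
  · rw [swap_apply_of_ne_of_ne (Fin.succ_ne_zero _) h] at h1
    exact ⟨1, by rw [zpow_one, h1]⟩

theorem sameCycle_lift {n : ℕ} (p : Fin (n + 1)) (e : Perm (Fin n)) {z x : Fin n}
    (h : e.SameCycle z x) : (decomposeFin.symm (p, e)).SameCycle z.succ x.succ := by
  obtain ⟨i, -, rfl⟩ := h.exists_pow_eq'
  clear h
  induction i with
  | zero => exact SameCycle.refl _ _
  | succ i ih =>
    refine ih.trans ?_
    rw [pow_succ', Perm.mul_apply]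
    exact sameCycle_step p e _

theorem gen_cyc (n : ℕ) (y : Perm (Fin n)) : ∃ s : Finset (Fin n), s.card ≤ cyc n y ∧
    ∀ x, ∃ z ∈ s, y.SameCycle z x := by
  classical
  induction n with
  | zero => exact ⟨∅, by simp, fun x => x.elim0⟩
  | succ n ih =>
    obtain ⟨⟨p, e⟩, rfl⟩ := decomposeFin.symm.surjective y
    obtain ⟨s, hs1, hs2⟩ := ih e
    refine ⟨s.image Fin.succ ∪ (if p = 0 then {0} else ∅), ?_, ?_⟩
    · refine (card_union_le _ _).trans ?_
      have := card_image_le (s := s) (f := Fin.succ)
      simp only [cyc, apply_symm_apply]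
      split_ifs <;> simp only [card_singleton, card_empty] <;> omega
    · intro x
      refine Fin.cases ?_ (fun x => ?_) x
      · by_cases hp : p = 0
        · exact ⟨0, by simp [hp], SameCycle.refl _ _⟩
        · obtain ⟨q, rfl⟩ := Fin.exists_succ_eq_of_ne_zero hp
          obtain ⟨z, hz1, hz2⟩ := hs2 q
          refine ⟨z.succ, mem_union_left _ (mem_image_of_mem _ hz1),
            (sameCycle_lift _ e hz2).trans ?_⟩
          refine SameCycle.symm ⟨1, ?_⟩
          rw [zpow_one]; exact decomposeFin_symm_apply_zero _ _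
      · obtain ⟨z, hz1, hz2⟩ := hs2 x
        exact ⟨z.succ, mem_union_left _ (mem_image_of_mem _ hz1), sameCycle_lift _ e hz2⟩

theorem roots_card {n : ℕ} (hn : 1 ≤ n) (m : ℤ) (hm : m ≠ 0) (L : ℕ) (g : Perm (Fin n)) :
    ((univ.filter (fun y : Perm (Fin n) => cyc n y ≤ L)).filter (fun y => y ^ m = g)).card ≤
      n ^ (m.natAbs * L) := by
  classical
  set S := (univ.filter (fun y : Perm (Fin n) => cyc n y ≤ L)).filter (fun y => y ^ m = g) with hS
  rcases S.eq_empty_or_nonempty with h | ⟨y0, hy0⟩
  · rw [h]; simp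
  simp only [hS, mem_filter, mem_univ, true_and] at hy0
  obtain ⟨s0, hs1, hs2⟩ := gen_cyc n y0
  set s := (range m.natAbs ×ˢ s0).image (fun q => (y0 ^ q.1) q.2) with hs
  have hscard : s.card ≤ m.natAbs * L := by
    refine card_image_le.trans ?_
    rw [card_product, card_range]
    exact Nat.mul_le_mul_left _ (hs1.trans hy0.1)
  have hgen : ∀ x, ∃ z ∈ s, ∃ i : ℤ, (g ^ i) z = x := by
    intro x
    obtain ⟨z, hz, i, hi⟩ := hs2 x
    have h1 : 0 ≤ i % m := Int.emod_nonneg _ hm
    have h2 : i % m < |m| := Int.emod_lt_abs _ hm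
    refine ⟨(y0 ^ (i % m).toNat) z, mem_image.2 ⟨((i % m).toNat, z), ?_, rfl⟩, i / m, ?_⟩
    · rw [mem_product, mem_range]
      exact ⟨by rw [← Int.natCast_natAbs] at h2; omega, hz⟩
    · rw [← hy0.2, ← hi, ← zpow_natCast, Int.toNat_of_nonneg h1, ← zpow_mul, ← Perm.mul_apply,
        ← zpow_add, Int.mul_ediv_add_emod]
  have hinj : Set.InjOn (fun (y : Perm (Fin n)) (z : s) => y z) S := by
    intro y hy y' hy' h
    simp only [hS, coe_filter, mem_filter, mem_univ, true_and, Set.mem_ofPred_eq] at hy hy'
    ext x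
    obtain ⟨z, hz, i, hi⟩ := hgen x
    have c1 : Commute y (g ^ i) := by
      rw [← hy.2]; exact ((Commute.refl y).zpow_right m).zpow_right i
    have c2 : Commute y' (g ^ i) := by
      rw [← hy'.2]; exact ((Commute.refl y').zpow_right m).zpow_right i
    have h3 : y z = y' z := congrFun h ⟨z, hz⟩
    rw [← hi, ← Perm.mul_apply, ← Perm.mul_apply, c1.eq, c2.eq, Perm.mul_apply, Perm.mul_apply, h3]
  have h4 : S.card ≤ Fintype.card (s → Fin n) := by
    rw [← card_image_of_injOn hinj]
    exact card_le_univ _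
  refine h4.trans ?_
  rw [Fintype.card_fun, Fintype.card_fin, Fintype.card_coe]
  exact Nat.pow_le_pow_right hn hscard

/-- the permutations with at most `sqrt n` cycles -/
def TT (n L : ℕ) : Finset (Perm (Fin n)) := univ.filter (fun y => cyc n y ≤ L)

theorem sum_roots {n : ℕ} (hn : 1 ≤ n) (m : ℤ) (hm : m ≠ 0) (L : ℕ) (φ : Perm (Fin n) → ℕ) :
    ∑ y ∈ TT n L, φ (y ^ m) ≤ n ^ (m.natAbs * L) * ∑ g, φ g := by
  classical
  rw [← sum_fiberwise (TT n L) (fun y => y ^ m), mul_sum]
  refine sum_le_sum fun g _ => ?_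
  have : ∑ y ∈ (TT n L).filter (fun y => y ^ m = g), φ (y ^ m) =
      ((TT n L).filter (fun y => y ^ m = g)).card * φ g := by
    rw [← smul_eq_mul, ← sum_const]
    refine sum_congr rfl fun y hy => ?_
    rw [(mem_filter.1 hy).2]
  rw [this]
  exact Nat.mul_le_mul_right _ (roots_card hn m hm L g)

/-- order of the centraliser -/
def Cz {n : ℕ} (h : Perm (Fin n)) : ℕ := (univ.filter (fun z => h * z = z * h)).card

theorem conj_card {n : ℕ} (h h' : Perm (Fin n)) :
    (univ.filter (fun z => h * z = z * h')).card ≤ Cz h := by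
  classical
  rcases (univ.filter (fun z => h * z = z * h')).eq_empty_or_nonempty with h0 | ⟨z0, hz0⟩
  · rw [h0]; simp
  have hz0' := (mem_filter.1 hz0).2
  refine card_le_card_of_injOn (fun z => z * z0⁻¹) (fun z hz => ?_) (fun z _ z' _ h => ?_)
  · have hz' := (mem_filter.1 hz).2
    refine mem_coe.2 (mem_filter.2 ⟨mem_univ _, ?_⟩)
    have h1 : h' = z0⁻¹ * h * z0 := by rw [mul_assoc, hz0']; group
    calc h * (z * z0⁻¹) = (h * z) * z0⁻¹ := by group
      _ = z * h' * z0⁻¹ := by rw [hz']
      _ = z * z0⁻¹ * h := by rw [h1]; group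
  · exact mul_right_cancel h

theorem conj_card' {n : ℕ} (h h' : Perm (Fin n)) :
    (univ.filter (fun z => h * z = z * h')).card ≤ Cz h' := by
  classical
  rcases (univ.filter (fun z => h * z = z * h')).eq_empty_or_nonempty with h0 | ⟨z0, hz0⟩
  · rw [h0]; simp
  have hz0' := (mem_filter.1 hz0).2
  refine card_le_card_of_injOn (fun z => z0⁻¹ * z) (fun z hz => ?_) (fun z _ z' _ h => ?_)
  · have hz' := (mem_filter.1 hz).2
    refine mem_coe.2 (mem_filter.2 ⟨mem_univ _, ?_⟩)
    have h1 : h = z0 * h' * z0⁻¹ := by rw [← hz0']; group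
    calc h' * (z0⁻¹ * z) = z0⁻¹ * (z0 * h' * z0⁻¹) * z := by group
      _ = z0⁻¹ * (h * z) := by rw [← h1]; group
      _ = z0⁻¹ * z * h' := by rw [hz']; group
  · exact mul_left_cancel h

theorem sum_Cz (n : ℕ) : ∑ h : Perm (Fin n), Cz h =
    Nat.card (ConjClasses (Perm (Fin n))) * n.factorial := by
  classical
  have h1 := card_comm_eq_card_conjClasses_mul_card (Perm (Fin n))
  rw [Nat.card_eq_fintype_card (α := Perm (Fin n)), Fintype.card_perm, Fintype.card_fin] at h1
  rw [← h1, Nat.card_eq_fintype_card, Fintype.card_subtype]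
  unfold Cz
  rw [← card_sigma]
  refine card_bij (fun a _ => (a.1, a.2)) ?_ ?_ ?_
  · rintro ⟨a, b⟩ h
    simp only [mem_sigma, mem_univ, true_and, mem_filter] at h ⊢
    exact h
  · rintro ⟨a, b⟩ _ ⟨a', b'⟩ _ h
    simp only [Prod.mk.injEq] at h
    obtain ⟨rfl, rfl⟩ := h
    rfl
  · rintro ⟨a, b⟩ h
    simp only [mem_univ, true_and, mem_filter] at h
    exact ⟨⟨a, b⟩, by simp only [mem_sigma, mem_univ, true_and, mem_filter]; exact h, rfl⟩

/-- decoding multisets -/
def Phi (n s : ℕ) (q : (Fin s → Fin (n + 1)) × (Fin s → Fin (n + 1))) : Multiset ℕ :=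
  ∑ i : Fin s, Multiset.replicate (q.1 i : ℕ) ((i : ℕ) + 1) +
    ((univ.val.map (fun i => ((q.2 i : Fin (n + 1)) : ℕ))).filter (fun x => s < x))

theorem Phi_surj {n s : ℕ} (hs : n < s * s) (M : Multiset ℕ) (h1 : ∀ x ∈ M, 1 ≤ x)
    (h2 : M.sum ≤ n) : ∃ q, Phi n s q = M := by
  have hle : ∀ x ∈ M, x ≤ n := fun x hx => (Multiset.le_sum_of_mem hx).trans h2
  have hcard : Multiset.card M ≤ n := by
    refine le_trans ?_ h2
    have := Multiset.card_nsmul_le_sum (s := M) (a := 1) h1
    simpa using this
  set D := M.filter (fun x => s < x) with hD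
  have hDs : Multiset.card D ≤ s := by
    by_contra hcon
    push Not at hcon
    have h3 : Multiset.card D • s ≤ D.sum := Multiset.card_nsmul_le_sum fun x hx =>
      (Multiset.mem_filter.1 hx).2.le
    have h4 : D.sum ≤ M.sum := by
      have h5 : D + M.filter (fun x => ¬ s < x) = M := Multiset.filter_add_not _ _
      have h6 := congrArg Multiset.sum h5
      rw [Multiset.sum_add] at h6
      omega
    rw [smul_eq_mul] at h3
    nlinarith
  set l := D.toList with hl
  have hll : l.length = Multiset.card D := by rw [hl, Multiset.length_toList]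
  have hlmem : ∀ x ∈ l, x ∈ D := fun x hx => Multiset.mem_toList.1 hx
  refine ⟨(fun i => ⟨M.count ((i : ℕ) + 1), Nat.lt_succ_of_le ((Multiset.count_le_card _ _).trans hcard)⟩,
    fun i => ⟨l.getD i 0, ?_⟩), ?_⟩
  · rcases Nat.lt_or_ge (i : ℕ) l.length with h | h
    · rw [List.getD_eq_getElem _ _ h]
      exact Nat.lt_succ_of_le (hle _ (Multiset.mem_filter.1 (hlmem _ (List.getElem_mem h))).1)
    · rw [List.getD_eq_default _ _ h]; exact Nat.succ_pos _
  · unfold Phi
    simp only []
    have e1 : ∑ i : Fin s, Multiset.replicate (M.count ((i : ℕ) + 1)) ((i : ℕ) + 1) =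
        M.filter (fun x => ¬ s < x) := by
      ext x
      rw [Multiset.count_sum', Multiset.count_filter]
      simp only [Multiset.count_replicate]
      by_cases hx : s < x
      · rw [if_neg (not_not.2 hx)]
        exact sum_eq_zero fun i _ => by rw [if_neg (by have := i.2; omega)]
      · rw [if_pos hx]
        rcases Nat.eq_zero_or_pos x with h0 | h0
        · subst h0
          rw [Multiset.count_eq_zero_of_notMem (fun h => absurd (h1 0 h) (by norm_num))]
          exact sum_eq_zero fun i _ => by rw [if_neg (by omega)]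
        · rw [sum_eq_single ⟨x - 1, by omega⟩]
          · simp only []
            rw [show x - 1 + 1 = x by omega, if_pos rfl]
          · intro i _ hi
            rw [if_neg]
            intro h
            exact hi (Fin.ext (by simp only []; omega))
          · intro h; exact absurd (mem_univ _) h
    have e2 : (univ.val.map (fun i : Fin s => l.getD i 0)).filter (fun x => s < x) = D := by
      rw [Fin.univ_val_map]
      have e3 : List.ofFn (fun i : Fin s => l.getD i 0) = l ++ List.replicate (s - l.length) 0 := by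
        apply List.ext_getElem
        · rw [List.length_ofFn, List.length_append, List.length_replicate]; omega
        · intro i hi1 hi2
          rw [List.getElem_ofFn]
          rcases Nat.lt_or_ge i l.length with h | h
          · rw [List.getElem_append_left h]
            exact List.getD_eq_getElem _ _ h
          · rw [List.getElem_append_right h, List.getElem_replicate]
            exact List.getD_eq_default _ _ h
      have f1 : Multiset.filter (fun x => s < x) D = D :=
        Multiset.filter_eq_self.2 (fun x hx => (Multiset.mem_filter.1 hx).2)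
      have f2 : Multiset.filter (fun x => s < x)
          ((List.replicate (s - l.length) 0 : List ℕ) : Multiset ℕ) = 0 := by
        refine Multiset.filter_eq_nil.2 fun x hx => ?_
        rw [Multiset.mem_coe, List.mem_replicate] at hx
        omega
      have f3 : ((l : List ℕ) : Multiset ℕ) = D := by rw [hl, Multiset.coe_toList]
      rw [e3, ← Multiset.coe_add, Multiset.filter_add, f3, f1, f2, add_zero]
    rw [e1, e2, add_comm]
    exact Multiset.filter_add_not _ _

theorem classes_card (n s : ℕ) (hs : n < s * s) :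
    Nat.card (ConjClasses (Perm (Fin n))) ≤ (n + 1) ^ (2 * s) := by
  classical
  have h1 : ∀ c : ConjClasses (Perm (Fin n)), ∃ q, ∃ σ : Perm (Fin n), ConjClasses.mk σ = c ∧
      Phi n s q = σ.cycleType := by
    intro c
    obtain ⟨σ, rfl⟩ := ConjClasses.exists_rep c
    obtain ⟨q, hq⟩ := Phi_surj hs σ.cycleType
      (fun x hx => (Nat.le_succ 1).trans (two_le_of_mem_cycleType hx)) (by
        rw [sum_cycleType]
        exact (card_le_univ _).trans (by rw [Fintype.card_fin]))
    exact ⟨q, σ, rfl, hq⟩
  choose q hq using h1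
  have hinj : Function.Injective q := by
    intro c c' h
    obtain ⟨σ, h2, h3⟩ := hq c
    obtain ⟨τ, h4, h5⟩ := hq c'
    rw [h, h5] at h3
    rw [← h2, ← h4, ConjClasses.mk_eq_mk_iff_isConj]
    exact isConj_iff_cycleType_eq.2 h3.symm
  have h2 := Nat.card_le_card_of_injective q hinj
  refine h2.trans (le_of_eq ?_)
  rw [Nat.card_eq_fintype_card, Fintype.card_prod, Fintype.card_fun, Fintype.card_fin,
    Fintype.card_fin, ← pow_add, two_mul]

end Pool.Agent.R813.EQ
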