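import Mathlib

set_option autoImplicit false

/-! A transport inequality on product sets and on symmetric groups. -/

namespace Pool.Agent.R813.EQ

open Finset

/-- relative entropy with respect to the uniform distribution -/
noncomputable def ent {X : Type*} [Fintype X] (μ : X → ℝ) : ℝ :=
  ∑ x, μ x * Real.log (Fintype.card X * μ x)

/-- transport inequality for the cost `c` -/
def TC (X : Type*) [Fintype X] (c : X → X → ℝ) (A B : ℝ) : Prop :=
  ∀ μ : X → ℝ, (∀ x, 0 ≤ μ x) → ∑ x, μ x = 1 → ∀ l : ℝ, 0 < l → ∃ γ : X → X → ℝ,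
    (∀ x y, 0 ≤ γ x y) ∧ (∀ x, ∑ y, γ x y = μ x) ∧ (∀ y, ∑ x, γ x y = 1 / Fintype.card X) ∧
    ∑ x, ∑ y, γ x y * c x y ≤ A * l + B * ent μ / l

theorem pt_bound {p N : ℝ} (hp : 0 ≤ p) (hN : 0 < N) :
    (Real.sqrt p - Real.sqrt (1 / N)) ^ 2 ≤ p * Real.log (N * p) - p + 1 / N := by
  have hu : 0 < 1 / N := by positivity
  rcases hp.eq_or_lt with h0 | h0
  · subst h0
    simp only [Real.sqrt_zero, zero_sub, neg_sq, zero_mul]
    rw [Real.sq_sqrt hu.le]
    linarith
  · have h1 : Real.log (N * p) = -2 * Real.log (Real.sqrt (1 / N) / Real.sqrt p) := by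
      rw [← Real.sqrt_div hu.le, Real.log_sqrt (by positivity)]
      rw [show 1 / N / p = (N * p)⁻¹ by field_simp, Real.log_inv]
      ring
    have h2 := Real.log_le_sub_one_of_pos (show 0 < Real.sqrt (1 / N) / Real.sqrt p by positivity)
    have h3 : p * (Real.sqrt (1 / N) / Real.sqrt p) = Real.sqrt p * Real.sqrt (1 / N) := by
      have : 0 < Real.sqrt p := Real.sqrt_pos.2 h0
      nth_rewrite 1 [← Real.mul_self_sqrt hp]
      field_simp
    have h4 : p * Real.log (N * p) ≥ 2 * p - 2 * (Real.sqrt p * Real.sqrt (1 / N)) := by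
      rw [h1, ← h3]
      nlinarith
    have h5 : (Real.sqrt p - Real.sqrt (1 / N)) ^ 2 = p + 1 / N -
        2 * (Real.sqrt p * Real.sqrt (1 / N)) := by
      rw [sub_sq, Real.sq_sqrt hp, Real.sq_sqrt hu.le]; ring
    rw [h5]; linarith

theorem pt_tv {p N l : ℝ} (hp : 0 ≤ p) (hN : 0 < N) (hl : 0 < l) :
    |p - 1 / N| ≤ (p * Real.log (N * p) - p + 1 / N) / l + l / 2 * (p + 1 / N) := by
  have hu : 0 < 1 / N := by positivity
  set a := Real.sqrt p with ha
  set b := Real.sqrt (1 / N) with hb
  have ha2 : a ^ 2 = p := Real.sq_sqrt hp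
  have hb2 : b ^ 2 = 1 / N := Real.sq_sqrt hu.le
  have h1 : |p - 1 / N| = |a - b| * (a + b) := by
    rw [← ha2, ← hb2, sq_sub_sq, abs_mul, abs_of_nonneg (add_nonneg (Real.sqrt_nonneg _)
      (Real.sqrt_nonneg _)), mul_comm]
  have h2 : |a - b| * (a + b) ≤ (a - b) ^ 2 / l + l / 4 * (a + b) ^ 2 := by
    rw [← sq_abs (a - b)]
    have : 0 ≤ (|a - b| - l / 2 * (a + b)) ^ 2 / l := by positivity
    have e : (|a - b| - l / 2 * (a + b)) ^ 2 / l = |a - b| ^ 2 / l - |a - b| * (a + b) +
        l / 4 * (a + b) ^ 2 := by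
      field_simp; ring
    linarith
  have h3 : (a - b) ^ 2 / l ≤ (p * Real.log (N * p) - p + 1 / N) / l := by
    gcongr
    exact pt_bound hp hN
  have h4 : l / 4 * (a + b) ^ 2 ≤ l / 2 * (p + 1 / N) := by
    have : (a + b) ^ 2 ≤ 2 * (p + 1 / N) := by rw [← ha2, ← hb2]; nlinarith [sq_nonneg (a - b)]
    nlinarith
  rw [h1]; linarith

theorem ent_nonneg {X : Type*} [Fintype X] {μ : X → ℝ} (h0 : ∀ x, 0 ≤ μ x) (h1 : ∑ x, μ x = 1) :
    0 ≤ ent μ := by
  have hne : Nonempty X := by
    by_contra hcon
    rw [not_nonempty_iff] at hcon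
    simp at h1
  have hN : (0 : ℝ) < Fintype.card X := by exact_mod_cast Fintype.card_pos
  have h2 : 0 ≤ ∑ x, (μ x * Real.log (Fintype.card X * μ x) - μ x + 1 / Fintype.card X) :=
    sum_nonneg fun x _ => (sq_nonneg _).trans (pt_bound (h0 x) hN)
  rw [sum_add_distrib, sum_sub_distrib, h1, sum_const, card_univ, nsmul_eq_mul] at h2
  have : (Fintype.card X : ℝ) * (1 / Fintype.card X) = 1 := by field_simp
  unfold ent
  linarith

theorem tv_ent {X : Type*} [Fintype X] {μ : X → ℝ} (h0 : ∀ x, 0 ≤ μ x) (h1 : ∑ x, μ x = 1)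
    {l : ℝ} (hl : 0 < l) : ∑ x, |μ x - 1 / Fintype.card X| ≤ ent μ / l + l := by
  have hne : Nonempty X := by
    by_contra hcon
    rw [not_nonempty_iff] at hcon
    simp at h1
  have hN : (0 : ℝ) < Fintype.card X := by exact_mod_cast Fintype.card_pos
  have e : (Fintype.card X : ℝ) * (1 / Fintype.card X) = 1 := by field_simp
  refine (sum_le_sum fun x _ => pt_tv (h0 x) hN hl).trans ?_
  rw [sum_add_distrib, ← sum_div, ← mul_sum, sum_add_distrib, sum_add_distrib, sum_sub_distrib, h1,
    sum_const, card_univ, nsmul_eq_mul, e]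
  unfold ent
  apply le_of_eq
  ring

theorem tv_coupling {Y : Type*} [Fintype Y] [DecidableEq Y] {p q : Y → ℝ} (hp : ∀ y, 0 ≤ p y)
    (hq : ∀ y, 0 ≤ q y) (hpq : ∑ y, p y = ∑ y, q y) : ∃ κ : Y → Y → ℝ, (∀ y z, 0 ≤ κ y z) ∧
    (∀ y, ∑ z, κ y z = p y) ∧ (∀ z, ∑ y, κ y z = q z) ∧
    ∑ y, ∑ z, κ y z * (if y = z then 0 else 1) ≤ (∑ y, |p y - q y|) / 2 := by
  set P : Y → ℝ := fun y => max (p y - q y) 0 with hP
  set Q : Y → ℝ := fun y => max (q y - p y) 0 with hQ
  have hP0 : ∀ y, 0 ≤ P y := fun y => le_max_right _ _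
  have hQ0 : ∀ y, 0 ≤ Q y := fun y => le_max_right _ _
  have e1 : ∀ y, P y - Q y = p y - q y := by
    intro y
    simp only [hP, hQ]
    rcases le_total (p y) (q y) with h | h
    · rw [max_eq_right (by linarith), max_eq_left (by linarith)]; ring
    · rw [max_eq_left (by linarith), max_eq_right (by linarith)]; ring
  have e2 : ∀ y, P y + Q y = |p y - q y| := by
    intro y
    simp only [hP, hQ]
    rcases le_total (p y) (q y) with h | h
    · rw [max_eq_right (by linarith), max_eq_left (by linarith), abs_of_nonpos (by linarith)]; ring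
    · rw [max_eq_left (by linarith), max_eq_right (by linarith), abs_of_nonneg (by linarith)]; ring
  have e3 : ∑ y, P y = ∑ y, Q y := by
    have : ∑ y, (P y - Q y) = 0 := by
      rw [sum_congr rfl fun y _ => e1 y, sum_sub_distrib, hpq, sub_self]
    rw [sum_sub_distrib] at this
    linarith
  set δ := ∑ y, P y with hδ
  have e4 : (∑ y, |p y - q y|) / 2 = δ := by
    rw [← sum_congr rfl fun y _ => e2 y, sum_add_distrib, ← e3]; ring
  have hδ0 : 0 ≤ δ := sum_nonneg fun y _ => hP0 y
  have e5 : ∀ y, P y * δ / δ = P y := by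
    intro y
    rcases hδ0.eq_or_lt with h | h
    · have : P y = 0 := by
        have := single_le_sum (fun y _ => hP0 y) (mem_univ y)
        rw [← hδ, ← h] at this
        exact le_antisymm this (hP0 y)
      rw [this]; simp
    · field_simp
  have e6 : ∀ y, Q y * δ / δ = Q y := by
    intro y
    rcases hδ0.eq_or_lt with h | h
    · have : Q y = 0 := by
        have := single_le_sum (fun y _ => hQ0 y) (mem_univ y)
        rw [← e3, ← h] at this
        exact le_antisymm this (hQ0 y)
      rw [this]; simp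
    · field_simp
  refine ⟨fun y z => (if y = z then min (p y) (q y) else 0) + P y * Q z / δ, ?_, ?_, ?_, ?_⟩
  · intro y z
    beta_reduce
    have : 0 ≤ P y * Q z / δ := div_nonneg (mul_nonneg (hP0 y) (hQ0 z)) hδ0
    split_ifs
    · have := le_min (hp y) (hq y); linarith
    · linarith
  · intro y
    rw [sum_add_distrib, sum_ite_eq, if_pos (mem_univ y), ← sum_div, ← mul_sum, ← e3, e5]
    simp only [hP]
    rcases le_total (p y) (q y) with h | h
    · rw [min_eq_left h, max_eq_right (by linarith), add_zero]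
    · rw [min_eq_right h, max_eq_left (by linarith)]; ring
  · intro z
    rw [sum_add_distrib, sum_ite_eq', if_pos (mem_univ z), ← sum_div, ← sum_mul, mul_comm, e6]
    simp only [hQ]
    rcases le_total (p z) (q z) with h | h
    · rw [min_eq_left h, max_eq_left (by linarith)]; ring
    · rw [min_eq_right h, max_eq_right (by linarith), add_zero]
  · rw [e4]
    calc ∑ y, ∑ z, ((if y = z then min (p y) (q y) else 0) + P y * Q z / δ) *
          (if y = z then 0 else 1) ≤ ∑ y, ∑ z, P y * Q z / δ := by
          refine sum_le_sum fun y _ => sum_le_sum fun z _ => ?_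
          have : 0 ≤ P y * Q z / δ := div_nonneg (mul_nonneg (hP0 y) (hQ0 z)) hδ0
          split_ifs <;> linarith
      _ = ∑ y, P y := by
          refine sum_congr rfl fun y _ => ?_
          rw [← sum_div, ← mul_sum, ← e3, e5]
      _ = δ := rfl
      _ ≤ δ := le_rfl

theorem TC.tensor {X Y : Type*} [Fintype X] [Fintype Y] [DecidableEq Y] {c : X → X → ℝ}
    {A B K : ℝ} (h : TC X c A B) (hK : 0 ≤ K) (hKB : K / 2 ≤ B) {c' : Y × X → Y × X → ℝ}
    (hc : ∀ y x y' x', c' (y, x) (y', x') ≤ K * (if y = y' then 0 else 1) + c x x') :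
    TC (Y × X) c' (A + K / 2) B := by
  classical
  intro μ h0 h1 l hl
  have hne : Nonempty (Y × X) := by
    by_contra hcon
    rw [not_nonempty_iff] at hcon
    simp at h1
  obtain ⟨⟨y0, x0⟩⟩ := hne
  have : Nonempty X := ⟨x0⟩
  have : Nonempty Y := ⟨y0⟩
  have hNX : (0 : ℝ) < Fintype.card X := by exact_mod_cast Fintype.card_pos
  have hNY : (0 : ℝ) < Fintype.card Y := by exact_mod_cast Fintype.card_pos
  set p : Y → ℝ := fun y => ∑ x, μ (y, x) with hp
  have hp0 : ∀ y, 0 ≤ p y := fun y => sum_nonneg fun x _ => h0 _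
  have hp1 : ∑ y, p y = 1 := by
    rw [← h1, Fintype.sum_prod_type]
  set ν : Y → X → ℝ := fun y x => if p y = 0 then 1 / Fintype.card X else μ (y, x) / p y with hν
  have hν0 : ∀ y x, 0 ≤ ν y x := by
    intro y x
    simp only [hν]
    split_ifs
    · positivity
    · exact div_nonneg (h0 _) (hp0 y)
  have hν1 : ∀ y, ∑ x, ν y x = 1 := by
    intro y
    by_cases hy : p y = 0
    · simp only [hν, if_pos hy]
      rw [sum_const, card_univ, nsmul_eq_mul]
      field_simp
    · simp only [hν, if_neg hy]
      rw [← sum_div]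
      exact div_self hy
  have hμν : ∀ y x, μ (y, x) = p y * ν y x := by
    intro y x
    by_cases hy : p y = 0
    · rw [hy, zero_mul]
      have := single_le_sum (fun x _ => h0 (y, x)) (mem_univ x)
      exact le_antisymm (this.trans hy.le) (h0 _)
    · simp only [hν, if_neg hy]
      field_simp
  obtain ⟨κ, hκ0, hκ1, hκ2, hκ3⟩ := tv_coupling (p := p) (q := fun _ => 1 / Fintype.card Y) hp0
    (fun _ => by positivity) (by rw [hp1, sum_const, card_univ, nsmul_eq_mul]; field_simp)
  choose γ hγ0 hγ1 hγ2 hγ3 using fun y => h (ν y) (hν0 y) (hν1 y) l hl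
  refine ⟨fun a b => κ a.1 b.1 * γ a.1 a.2 b.2, fun a b => mul_nonneg (hκ0 _ _) (hγ0 _ _ _),
    ?_, ?_, ?_⟩
  · rintro ⟨y, x⟩
    rw [Fintype.sum_prod_type]
    simp only []
    calc ∑ z, ∑ x', κ y z * γ y x x' = ∑ z, κ y z * ν y x :=
          sum_congr rfl fun z _ => by rw [← mul_sum, hγ1]
      _ = μ (y, x) := by rw [← sum_mul, hκ1, hμν]
  · rintro ⟨z, x'⟩
    rw [Fintype.sum_prod_type]
    simp only []
    calc ∑ y, ∑ x, κ y z * γ y x x' = ∑ y, κ y z * (1 / Fintype.card X) :=
          sum_congr rfl fun y _ => by rw [← mul_sum, hγ2]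
      _ = 1 / Fintype.card (Y × X) := by
          rw [← sum_mul, hκ2, Fintype.card_prod]
          push_cast
          field_simp
  · have hent : ent μ = ent p + ∑ y, p y * ent (ν y) := by
      unfold ent
      rw [Fintype.sum_prod_type, ← sum_add_distrib]
      refine sum_congr rfl fun y _ => ?_
      have e : p y * Real.log (Fintype.card Y * p y) =
          ∑ x, p y * ν y x * Real.log (Fintype.card Y * p y) := by
        rw [← sum_mul, ← mul_sum, hν1, mul_one]
      have e' : p y * ∑ x, ν y x * Real.log (Fintype.card X * ν y x) =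
          ∑ x, p y * (ν y x * Real.log (Fintype.card X * ν y x)) := mul_sum _ _ _
      rw [e, e', ← sum_add_distrib]
      refine sum_congr rfl fun x _ => ?_
      rw [hμν y x]
      rcases (hp0 y).eq_or_lt with hy | hy
      · rw [← hy]; simp
      rcases (hν0 y x).eq_or_lt with hx | hx
      · rw [← hx]; simp
      have e2 : (Fintype.card (Y × X) : ℝ) * (p y * ν y x) =
          (Fintype.card Y * p y) * (Fintype.card X * ν y x) := by
        rw [Fintype.card_prod]; push_cast; ring
      rw [e2, Real.log_mul (by positivity) (by positivity)]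
      ring
    calc ∑ a : Y × X, ∑ b : Y × X, κ a.1 b.1 * γ a.1 a.2 b.2 * c' a b
        ≤ ∑ a : Y × X, ∑ b : Y × X, (K * (κ a.1 b.1 * (if a.1 = b.1 then 0 else 1) *
            γ a.1 a.2 b.2) + κ a.1 b.1 * (γ a.1 a.2 b.2 * c a.2 b.2)) := by
          refine sum_le_sum fun a _ => sum_le_sum fun b _ => ?_
          have h2 := hc a.1 a.2 b.1 b.2
          have h3 : 0 ≤ κ a.1 b.1 * γ a.1 a.2 b.2 := mul_nonneg (hκ0 _ _) (hγ0 _ _ _)
          calc κ a.1 b.1 * γ a.1 a.2 b.2 * c' a b ≤ κ a.1 b.1 * γ a.1 a.2 b.2 *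
                (K * (if a.1 = b.1 then 0 else 1) + c a.2 b.2) := mul_le_mul_of_nonneg_left h2 h3
            _ = _ := by ring
      _ = K * ∑ y, ∑ z, κ y z * (if y = z then 0 else 1) + ∑ y, p y * ∑ x, ∑ x', γ y x x' * c x x' := by
          simp only [sum_add_distrib, ← mul_sum, Fintype.sum_prod_type]
          congr 1
          · congr 1
            refine sum_congr rfl fun y _ => ?_
            rw [sum_comm]
            refine sum_congr rfl fun z _ => ?_
            have e7 : ∀ x : X, ∑ x' : X, (κ y z * if y = z then (0 : ℝ) else 1) * γ y x x' =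
                (κ y z * if y = z then (0 : ℝ) else 1) * ν y x := fun x => by
              rw [← hγ1 y x]; exact (mul_sum _ _ _).symm
            rw [sum_congr rfl fun x _ => e7 x]
            refine (mul_sum _ _ _).symm.trans ?_
            rw [hν1, mul_one]
          · refine sum_congr rfl fun y _ => ?_
            rw [mul_sum]
            refine sum_congr rfl fun x _ => ?_
            rw [← sum_mul, hκ1]
      _ ≤ K * ((ent p / l + l) / 2) + ∑ y, p y * (A * l + B * ent (ν y) / l) := by
          refine add_le_add (mul_le_mul_of_nonneg_left (hκ3.trans ?_) hK)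
            (sum_le_sum fun y _ => mul_le_mul_of_nonneg_left (hγ3 y) (hp0 y))
          have := tv_ent hp0 hp1 hl
          linarith
      _ ≤ (A + K / 2) * l + B * ent μ / l := by
          rw [hent]
          have e3 : ∑ y, p y * (A * l + B * ent (ν y) / l) = A * l +
              B * (∑ y, p y * ent (ν y)) / l := by
            have : ∀ y, p y * (A * l + B * ent (ν y) / l) = p y * (A * l) +
                B * (p y * ent (ν y)) / l := fun y => by ring
            rw [sum_congr rfl fun y _ => this y, sum_add_distrib, ← sum_mul, hp1, one_mul,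
              ← sum_div, ← mul_sum]
          rw [e3]
          have e4 : K / 2 * (ent p / l) ≤ B * (ent p / l) :=
            mul_le_mul_of_nonneg_right hKB (div_nonneg (ent_nonneg hp0 hp1) hl.le)
          have e5 : B * (ent p + ∑ y, p y * ent (ν y)) / l = B * (ent p / l) +
              B * (∑ y, p y * ent (ν y)) / l := by ring
          rw [e5]
          linarith

theorem TC.congr {X X' : Type*} [Fintype X] [Fintype X'] {c : X → X → ℝ} {c' : X' → X' → ℝ}
    {A B : ℝ} (h : TC X c A B) (e : X' ≃ X) (hc : ∀ x y, c' x y = c (e x) (e y)) :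
    TC X' c' A B := by
  intro μ h0 h1 l hl
  have hcard : Fintype.card X' = Fintype.card X := Fintype.card_congr e
  obtain ⟨γ, g0, g1, g2, g3⟩ := h (fun x => μ (e.symm x)) (fun x => h0 _)
    (by rw [← h1]; exact Equiv.sum_comp e.symm μ) l hl
  refine ⟨fun x y => γ (e x) (e y), fun x y => g0 _ _, fun x => ?_, fun y => ?_, ?_⟩
  · rw [Equiv.sum_comp e (fun y => γ (e x) y), g1]; simp
  · rw [Equiv.sum_comp e (fun x => γ x (e y)), g2, hcard]
  · have e1 : ent (fun x => μ (e.symm x)) = ent μ := by
      unfold ent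
      rw [← Equiv.sum_comp e, hcard]
      simp
    rw [e1] at g3
    refine le_trans (le_of_eq ?_) g3
    rw [← Equiv.sum_comp e (fun x => ∑ y, γ x y * c x y)]
    refine sum_congr rfl fun x _ => ?_
    rw [← Equiv.sum_comp e (fun y => γ (e x) y * c (e x) y)]
    exact sum_congr rfl fun y _ => by rw [hc]

theorem TC.unit (B : ℝ) : TC Unit (fun _ _ => 0) 0 B := by
  intro μ h0 h1 l hl
  have h2 : μ () = 1 := by simpa using h1
  refine ⟨fun _ _ => 1, fun _ _ => zero_le_one, fun x => ?_, fun y => ?_, ?_⟩
  · cases x; simp [h2]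
  · simp
  · simp [ent, h2]

/-- the Hamming distance of permutations -/
def ham {n : ℕ} (σ τ : Equiv.Perm (Fin n)) : ℕ := (univ.filter (fun i => σ i ≠ τ i)).card

theorem ham_decompose {n : ℕ} (p p' : Fin (n + 1)) (e e' : Equiv.Perm (Fin n)) :
    (ham (Equiv.Perm.decomposeFin.symm (p, e)) (Equiv.Perm.decomposeFin.symm (p', e')) : ℝ) ≤
      3 * (if p = p' then 0 else 1) + ham e e' := by
  classical
  have key : ham (Equiv.Perm.decomposeFin.symm (p, e)) (Equiv.Perm.decomposeFin.symm (p', e')) ≤
      3 * (if p = p' then 0 else 1) + ham e e' := by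
    unfold ham
    rcases eq_or_ne p p' with rfl | hne
    · rw [if_pos rfl, mul_zero, zero_add]
      refine (card_le_card (t := ((univ.filter (fun i => e i ≠ e' i)).image Fin.succ))
        fun i hi => ?_).trans card_image_le
      rw [mem_filter] at hi
      revert hi
      refine Fin.cases (fun hi => ?_) (fun i hi => ?_) i
      · exact absurd (by simp) hi.2
      · refine mem_image_of_mem _ (mem_filter.2 ⟨mem_univ _, fun h => hi.2 ?_⟩)
        simp [Equiv.Perm.decomposeFin_symm_apply_succ, h]
    · rw [if_neg hne, mul_one]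
      have hsub : univ.filter (fun i => Equiv.Perm.decomposeFin.symm (p, e) i ≠
          Equiv.Perm.decomposeFin.symm (p', e') i) ⊆
          ((univ.filter (fun i => e i ≠ e' i)).image Fin.succ) ∪
          {0, (Equiv.Perm.decomposeFin.symm (0, e)).symm p,
            (Equiv.Perm.decomposeFin.symm (0, e)).symm p'} := by
        intro i hi
        rw [mem_filter] at hi
        revert hi
        refine Fin.cases (fun hi => ?_) (fun i hi => ?_) i
        · simp
        · rw [mem_union]
          by_cases hee : e i = e' i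
          · right
            have hi2 := hi.2
            rw [Equiv.Perm.decomposeFin_symm_apply_succ, Equiv.Perm.decomposeFin_symm_apply_succ,
              ← hee] at hi2
            have h1 : (e i).succ = p ∨ (e i).succ = p' := by
              by_contra hcon
              push Not at hcon
              apply hi2
              rw [Equiv.swap_apply_of_ne_of_ne (Fin.succ_ne_zero _) hcon.1,
                Equiv.swap_apply_of_ne_of_ne (Fin.succ_ne_zero _) hcon.2]
            have h2 : Equiv.Perm.decomposeFin.symm (0, e) i.succ = (e i).succ := by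
              rw [Equiv.Perm.decomposeFin_symm_apply_succ]; simp
            rw [mem_insert, mem_insert, mem_singleton]
            rcases h1 with h1 | h1
            · right; left; rw [Equiv.eq_symm_apply, h2, h1]
            · right; right; rw [Equiv.eq_symm_apply, h2, h1]
          · left
            exact mem_image_of_mem _ (mem_filter.2 ⟨mem_univ _, hee⟩)
      refine (card_le_card hsub).trans ((card_union_le _ _).trans ?_)
      have h1 := card_image_le (s := univ.filter (fun i => e i ≠ e' i)) (f := Fin.succ)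
      have h2 := card_le_three (a := (0 : Fin (n + 1))) (b := (Equiv.Perm.decomposeFin.symm (0, e)).symm p)
        (c := (Equiv.Perm.decomposeFin.symm (0, e)).symm p')
      omega
  have := (Nat.cast_le (α := ℝ)).2 key
  push_cast at this
  exact this

theorem TC.perm (n : ℕ) : ∀ {X : Type} [Fintype X] {c : X → X → ℝ} {A B : ℝ}, TC X c A B →
    3 / 2 ≤ B → TC (Equiv.Perm (Fin n) × X) (fun a b => (ham a.1 b.1 : ℝ) + c a.2 b.2)
      (A + 3 / 2 * n) B := by
  induction n with
  | zero =>
    intro X _ c A B h hB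
    have h1 := h.congr (X' := Equiv.Perm (Fin 0) × X)
      (c' := fun a b => (ham a.1 b.1 : ℝ) + c a.2 b.2) (Equiv.uniqueProd X (Equiv.Perm (Fin 0)))
      (by rintro ⟨a, x⟩ ⟨b, y⟩; simp [ham])
    simpa using h1
  | succ n ih =>
    intro X _ c A B h hB
    have h1 := (ih h hB).tensor (Y := Fin (n + 1)) (K := 3) (by norm_num) (by linarith)
      (c' := fun a b => (ham (Equiv.Perm.decomposeFin.symm (a.1, a.2.1))
        (Equiv.Perm.decomposeFin.symm (b.1, b.2.1)) : ℝ) + c a.2.2 b.2.2) (by
        rintro y ⟨e, x⟩ y' ⟨e', x'⟩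
        have := ham_decompose y y' e e'
        simp only []
        linarith)
    have h2 := h1.congr (X' := Equiv.Perm (Fin (n + 1)) × X)
      (c' := fun a b => (ham a.1 b.1 : ℝ) + c a.2 b.2)
      ((Equiv.prodCongr Equiv.Perm.decomposeFin (Equiv.refl X)).trans (Equiv.prodAssoc _ _ _)) (by
        rintro ⟨a, x⟩ ⟨b, y⟩
        simp)
    have e : A + 3 / 2 * ((n + 1 : ℕ) : ℝ) = A + 3 / 2 * n + 3 / 2 := by push_cast; ring
    rw [e]
    exact h2

end Pool.Agent.R813.EQ
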