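import Mathlib
import Pool.Agent.R813.EQ.Trans
import Pool.Agent.R813.EQ.Cyc

set_option autoImplicit false

/-! Collisions. -/

namespace Pool.Agent.R813.EQ

open Finset Equiv

/-- law of a map on a finite set -/
noncomputable def lw {Ω X : Type*} [DecidableEq X] (S : Finset Ω) (F : Ω → X) (s : X) : ℝ :=
  ((S.filter (fun ω => F ω = s)).card : ℝ) / S.card

theorem lw_nonneg {Ω X : Type*} [DecidableEq X] (S : Finset Ω) (F : Ω → X) (s : X) :
    0 ≤ lw S F s := by unfold lw; positivity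

theorem lw_sum {Ω X : Type*} [DecidableEq X] [Fintype X] {S : Finset Ω} (hS : S.Nonempty)
    (F : Ω → X) : ∑ s, lw S F s = 1 := by
  unfold lw
  rw [← sum_div, ← Nat.cast_sum, ← card_eq_sum_card_fiberwise (fun _ _ => mem_coe.2 (mem_univ _))]
  have : (0 : ℝ) < S.card := by exact_mod_cast hS.card_pos
  exact div_self this.ne'

theorem lw_sq {Ω X : Type*} [DecidableEq X] [Fintype X] (S : Finset Ω) (F : Ω → X) :
    ∑ s, lw S F s ^ 2 = (((S ×ˢ S).filter (fun q => F q.1 = F q.2)).card : ℝ) / (S.card : ℝ) ^ 2 := by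
  classical
  unfold lw
  simp only [div_pow]
  rw [← sum_div]
  congr 1
  have h : ((S ×ˢ S).filter (fun q => F q.1 = F q.2)).card =
      ∑ s, (S.filter (fun ω => F ω = s)).card ^ 2 := by
    rw [card_eq_sum_card_fiberwise (f := fun q => F q.1) (t := univ)
      (fun _ _ => mem_coe.2 (mem_univ _))]
    refine sum_congr rfl fun s _ => ?_
    rw [pow_two, ← card_product]
    congr 1
    ext ⟨a, b⟩
    simp only [mem_filter, mem_product]
    constructor
    · rintro ⟨⟨⟨h1, h2⟩, h3⟩, h4⟩; exact ⟨⟨h1, h4⟩, h2, h3 ▸ h4⟩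
    · rintro ⟨⟨h1, h2⟩, h3, h4⟩; exact ⟨⟨⟨h1, h3⟩, h2.trans h4.symm⟩, h2⟩
  rw [h]
  push_cast
  rfl

theorem ent_le {X : Type*} [Fintype X] {μ : X → ℝ} (h0 : ∀ x, 0 ≤ μ x) (h1 : ∑ x, μ x = 1) :
    ent μ ≤ Real.log (Fintype.card X * ∑ x, μ x ^ 2) := by
  have hne : Nonempty X := by
    by_contra hcon
    rw [not_nonempty_iff] at hcon
    simp at h1
  have hN : (0 : ℝ) < Fintype.card X := by exact_mod_cast Fintype.card_pos
  set a := Fintype.card X * ∑ x, μ x ^ 2 with ha
  have hs : 0 < ∑ x, μ x ^ 2 := by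
    have h2 : 0 ≤ ∑ x, μ x ^ 2 := sum_nonneg fun x _ => sq_nonneg _
    rcases h2.eq_or_lt with h3 | h3
    · exfalso
      have h4 := (sum_eq_zero_iff_of_nonneg (fun x _ => sq_nonneg (μ x))).1 h3.symm
      have h5 : ∑ x, μ x = 0 := sum_eq_zero fun x hx => by
        have := h4 x hx; exact pow_eq_zero_iff (two_ne_zero) |>.1 this
      linarith
    · exact h3
  have ha0 : 0 < a := mul_pos hN hs
  have h2 : ∀ x, μ x * Real.log (Fintype.card X * μ x) ≤
      Fintype.card X * μ x ^ 2 / a + μ x * (Real.log a - 1) := by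
    intro x
    rcases (h0 x).eq_or_lt with h | h
    · rw [← h]; simp
    · have h3 : Real.log (Fintype.card X * μ x) = Real.log (Fintype.card X * μ x / a) + Real.log a := by
        rw [← Real.log_mul (by positivity) ha0.ne']
        congr 1; field_simp
      have h4 := Real.log_le_sub_one_of_pos (show 0 < Fintype.card X * μ x / a by positivity)
      rw [h3]
      have : μ x * (Real.log (Fintype.card X * μ x / a) + Real.log a) ≤
          μ x * ((Fintype.card X * μ x / a - 1) + Real.log a) :=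
        mul_le_mul_of_nonneg_left (by linarith) h.le
      refine this.trans (le_of_eq ?_)
      ring
  refine (sum_le_sum fun x _ => h2 x).trans (le_of_eq ?_)
  rw [sum_add_distrib, ← sum_mul, h1, one_mul, ← sum_div, ← mul_sum, ← ha, div_self ha0.ne']
  ring

/-- the map -/
def FF {n : ℕ} (k l m : ℤ) (x : Fin 2 → Perm (Fin n)) : Fin 2 → Perm (Fin n) :=
  ![x 0, x 1 ^ k * x 0 ^ m * x 1 ^ l]

theorem inner_count {n : ℕ} (hn : 1 ≤ n) (k l m : ℤ) (hm : m ≠ 0) (L : ℕ) (y y' : Perm (Fin n)) :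
    ((TT n L).filter (fun x => y ^ k * x ^ m * y ^ l = y' ^ k * x ^ m * y' ^ l)).card ≤
      n ^ (m.natAbs * L) * min (Cz (y' ^ (-k) * y ^ k)) (Cz (y' ^ l * y ^ (-l))) := by
  classical
  have h1 := sum_roots hn m hm L
    (fun z => if y ^ k * z * y ^ l = y' ^ k * z * y' ^ l then 1 else 0)
  rw [card_filter]
  refine h1.trans (Nat.mul_le_mul_left _ ?_)
  rw [← card_filter]
  have h2 : univ.filter (fun z => y ^ k * z * y ^ l = y' ^ k * z * y' ^ l) =
      univ.filter (fun z => (y' ^ (-k) * y ^ k) * z = z * (y' ^ l * y ^ (-l))) := by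
    ext z
    simp only [mem_filter, mem_univ, true_and]
    constructor
    · intro h
      calc (y' ^ (-k) * y ^ k) * z = y' ^ (-k) * (y ^ k * z * y ^ l) * y ^ (-l) := by group
        _ = z * (y' ^ l * y ^ (-l)) := by rw [h]; group
    · intro h
      calc y ^ k * z * y ^ l = y' ^ k * ((y' ^ (-k) * y ^ k) * z) * y ^ l := by group
        _ = y' ^ k * z * y' ^ l := by rw [h]; group
  rw [h2]
  exact le_min (conj_card _ _) (conj_card' _ _)

theorem sum_min {n : ℕ} (hn : 1 ≤ n) (k l : ℤ) (hkl : k ≠ 0 ∨ l ≠ 0) (L : ℕ) (y' : Perm (Fin n)) :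
    ∑ y ∈ TT n L, min (Cz (y' ^ (-k) * y ^ k)) (Cz (y' ^ l * y ^ (-l))) ≤
      n ^ ((k.natAbs + l.natAbs) * L) * ∑ h : Perm (Fin n), Cz h := by
  rcases hkl with hk | hl
  · calc ∑ y ∈ TT n L, min (Cz (y' ^ (-k) * y ^ k)) (Cz (y' ^ l * y ^ (-l)))
        ≤ ∑ y ∈ TT n L, (fun g => Cz (y' ^ (-k) * g)) (y ^ k) :=
          sum_le_sum fun y _ => min_le_left _ _
      _ ≤ n ^ (k.natAbs * L) * ∑ g, Cz (y' ^ (-k) * g) := sum_roots hn k hk L (fun g => Cz (y' ^ (-k) * g))
      _ = n ^ (k.natAbs * L) * ∑ h, Cz h := by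
          congr 1
          exact Equiv.sum_comp (Equiv.mulLeft (y' ^ (-k))) (fun h => Cz h)
      _ ≤ _ := Nat.mul_le_mul_right _ (Nat.pow_le_pow_right hn (Nat.mul_le_mul_right _ (by omega)))
  · calc ∑ y ∈ TT n L, min (Cz (y' ^ (-k) * y ^ k)) (Cz (y' ^ l * y ^ (-l)))
        ≤ ∑ y ∈ TT n L, (fun g => Cz (y' ^ l * g)) (y ^ (-l)) :=
          sum_le_sum fun y _ => min_le_right _ _
      _ ≤ n ^ ((-l).natAbs * L) * ∑ g, Cz (y' ^ l * g) := sum_roots hn (-l) (neg_ne_zero.2 hl) L (fun g => Cz (y' ^ l * g))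
      _ = n ^ (l.natAbs * L) * ∑ h, Cz h := by
          rw [Int.natAbs_neg]
          congr 1
          exact Equiv.sum_comp (Equiv.mulLeft (y' ^ l)) (fun h => Cz h)
      _ ≤ _ := Nat.mul_le_mul_right _ (Nat.pow_le_pow_right hn (Nat.mul_le_mul_right _ (by omega)))

/-- the good pairs -/
def SS (n L : ℕ) : Finset (Fin 2 → Perm (Fin n)) := Fintype.piFinset (fun _ => TT n L)

theorem collisions {n : ℕ} (hn : 1 ≤ n) (k l m : ℤ) (hm : m ≠ 0) (hkl : k ≠ 0 ∨ l ≠ 0) (L : ℕ) :
    ((SS n L ×ˢ SS n L).filter (fun q => FF k l m q.1 = FF k l m q.2)).card ≤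
      n.factorial * (n ^ ((k.natAbs + l.natAbs + m.natAbs) * L) *
        (Nat.card (ConjClasses (Perm (Fin n))) * n.factorial)) := by
  classical
  have h1 : ((SS n L ×ˢ SS n L).filter (fun q => FF k l m q.1 = FF k l m q.2)).card ≤
      ((TT n L ×ˢ (TT n L ×ˢ TT n L)).filter (fun q =>
        q.2.1 ^ k * q.2.2 ^ m * q.2.1 ^ l = q.1 ^ k * q.2.2 ^ m * q.1 ^ l)).card := by
    refine card_le_card_of_injOn (fun q => (q.2 1, q.1 1, q.1 0)) ?_ ?_
    · rintro ⟨a, b⟩ hq
      simp only [SS, coe_filter, mem_product, Fintype.mem_piFinset, Set.mem_ofPred_eq] at hq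
      obtain ⟨⟨h1, h2⟩, h3⟩ := hq
      have e0 := congrFun h3 0
      have e1 := congrFun h3 1
      simp only [FF, Matrix.cons_val_zero, Matrix.cons_val_one] at e0 e1
      simp only [coe_filter, mem_product, Set.mem_ofPred_eq]
      exact ⟨⟨h2 1, h1 1, h1 0⟩, by rw [e1, e0]⟩
    · rintro ⟨a, b⟩ hq ⟨a', b'⟩ hq' h
      simp only [SS, coe_filter, mem_product, Fintype.mem_piFinset, Set.mem_ofPred_eq] at hq hq'
      have e0 := congrFun hq.2 0
      have e0' := congrFun hq'.2 0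
      simp only [FF, Matrix.cons_val_zero] at e0 e0'
      simp only [Prod.mk.injEq] at h
      obtain ⟨h1, h2, h3⟩ := h
      have ea : a = a' := by
        funext i; fin_cases i
        · exact h3
        · exact h2
      have eb : b = b' := by
        funext i; fin_cases i
        · exact e0.symm.trans (h3.trans e0')
        · exact h1
      rw [ea, eb]
  refine h1.trans ?_
  rw [card_filter, sum_product]
  have h2 : ∀ y' ∈ TT n L, ∑ q ∈ TT n L ×ˢ TT n L, (if q.1 ^ k * q.2 ^ m * q.1 ^ l =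
      y' ^ k * q.2 ^ m * y' ^ l then 1 else 0) ≤ n ^ ((k.natAbs + l.natAbs + m.natAbs) * L) *
        (Nat.card (ConjClasses (Perm (Fin n))) * n.factorial) := by
    intro y' _
    rw [sum_product]
    calc ∑ y ∈ TT n L, ∑ x ∈ TT n L, (if y ^ k * x ^ m * y ^ l = y' ^ k * x ^ m * y' ^ l then 1 else 0)
        ≤ ∑ y ∈ TT n L, n ^ (m.natAbs * L) *
            min (Cz (y' ^ (-k) * y ^ k)) (Cz (y' ^ l * y ^ (-l))) := by
          refine sum_le_sum fun y _ => ?_
          rw [← card_filter]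
          exact inner_count hn k l m hm L y y'
      _ ≤ n ^ (m.natAbs * L) * (n ^ ((k.natAbs + l.natAbs) * L) * ∑ h : Perm (Fin n), Cz h) := by
          rw [← mul_sum]
          exact Nat.mul_le_mul_left _ (sum_min hn k l hkl L y')
      _ = _ := by
          rw [sum_Cz, ← mul_assoc, ← pow_add]
          congr 2
          ring
  refine (sum_le_sum h2).trans ?_
  rw [sum_const, smul_eq_mul]
  refine Nat.mul_le_mul_right _ ?_
  refine (card_le_univ _).trans ?_
  rw [Fintype.card_perm, Fintype.card_fin]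

theorem card_SS (n L : ℕ) : (SS n L).card = (TT n L).card ^ 2 := by
  rw [SS, Fintype.card_piFinset]; simp

theorem ent_bound {n : ℕ} (hn : 1 ≤ n) (k l m : ℤ) (hm : m ≠ 0) (hkl : k ≠ 0 ∨ l ≠ 0) (L s : ℕ)
    (hs : n < s * s) (hT : (n.factorial : ℝ) / 2 ≤ (TT n L).card) :
    ent (lw (SS n L) (FF k l m)) ≤ Real.log 16 +
      (((k.natAbs + l.natAbs + m.natAbs) * L + 2 * s : ℕ) : ℝ) * Real.log (n + 1) := by
  classical
  have hf : (0 : ℝ) < n.factorial := by exact_mod_cast n.factorial_pos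
  have hT0 : (0 : ℝ) < (TT n L).card := by linarith
  have hS : (SS n L).Nonempty := by
    rw [← card_pos, card_SS]
    have : 0 < (TT n L).card := by exact_mod_cast hT0
    positivity
  refine (ent_le (lw_nonneg _ _) (lw_sum hS _)).trans ?_
  rw [lw_sq, card_SS]
  set a := k.natAbs + l.natAbs + m.natAbs with ha
  have h1 : (((SS n L ×ˢ SS n L).filter (fun q => FF k l m q.1 = FF k l m q.2)).card : ℝ) ≤
      n.factorial * ((n : ℝ) ^ (a * L) * (((n : ℝ) + 1) ^ (2 * s) * n.factorial)) := by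
    have h2 := (collisions hn k l m hm hkl L).trans (Nat.mul_le_mul_left _ (Nat.mul_le_mul_left _
      (Nat.mul_le_mul_right _ (classes_card n s hs))))
    have h3 := (Nat.cast_le (α := ℝ)).2 h2
    push_cast at h3
    exact h3
  have hcard : (Fintype.card (Fin 2 → Perm (Fin n)) : ℝ) = (n.factorial : ℝ) ^ 2 := by
    rw [Fintype.card_fun, Fintype.card_fin, Fintype.card_perm, Fintype.card_fin]; push_cast; rfl
  have hn' : (0 : ℝ) < n := by exact_mod_cast hn
  have h7 : (0 : ℝ) < (((TT n L).card ^ 2 : ℕ) : ℝ) := by push_cast; positivity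
  have h2 : (Fintype.card (Fin 2 → Perm (Fin n)) : ℝ) *
      ((((SS n L ×ˢ SS n L).filter (fun q => FF k l m q.1 = FF k l m q.2)).card : ℝ) /
        (((TT n L).card ^ 2 : ℕ) : ℝ) ^ 2) ≤ 16 * ((n : ℝ) + 1) ^ (a * L + 2 * s) := by
    rw [hcard, ← mul_div_assoc, div_le_iff₀ (pow_pos h7 2)]
    have h3 : (n : ℝ) ^ (a * L) ≤ ((n : ℝ) + 1) ^ (a * L) :=
      pow_le_pow_left₀ hn'.le (by linarith) _
    have h4 : (n.factorial : ℝ) ^ 4 ≤ 16 * ((TT n L).card : ℝ) ^ 4 := by
      have h5 : (n.factorial : ℝ) ≤ 2 * (TT n L).card := by linarith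
      calc (n.factorial : ℝ) ^ 4 ≤ (2 * ((TT n L).card : ℝ)) ^ 4 := pow_le_pow_left₀ hf.le h5 4
        _ = _ := by ring
    calc (n.factorial : ℝ) ^ 2 *
          (((SS n L ×ˢ SS n L).filter (fun q => FF k l m q.1 = FF k l m q.2)).card : ℝ)
        ≤ (n.factorial : ℝ) ^ 2 *
          (n.factorial * (((n : ℝ) + 1) ^ (a * L) * (((n : ℝ) + 1) ^ (2 * s) * n.factorial))) := by
          refine mul_le_mul_of_nonneg_left (h1.trans ?_) (by positivity)
          gcongr
      _ = (n.factorial : ℝ) ^ 4 * ((n : ℝ) + 1) ^ (a * L + 2 * s) := by rw [pow_add]; ring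
      _ ≤ (16 * ((TT n L).card : ℝ) ^ 4) * ((n : ℝ) + 1) ^ (a * L + 2 * s) :=
          mul_le_mul_of_nonneg_right h4 (by positivity)
      _ = _ := by push_cast; ring
  have hpos : 0 < (Fintype.card (Fin 2 → Perm (Fin n)) : ℝ) *
      ((((SS n L ×ˢ SS n L).filter (fun q => FF k l m q.1 = FF k l m q.2)).card : ℝ) /
        (((TT n L).card ^ 2 : ℕ) : ℝ) ^ 2) := by
    rw [hcard]
    have h5 : 0 < ((SS n L ×ˢ SS n L).filter (fun q => FF k l m q.1 = FF k l m q.2)).card := by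
      obtain ⟨x, hx⟩ := hS
      exact card_pos.2 ⟨(x, x), mem_filter.2 ⟨mem_product.2 ⟨hx, hx⟩, rfl⟩⟩
    have h6 : (0 : ℝ) < ((SS n L ×ˢ SS n L).filter (fun q => FF k l m q.1 = FF k l m q.2)).card := by
      exact_mod_cast h5
    positivity
  refine (Real.log_le_log hpos h2).trans (le_of_eq ?_)
  rw [Real.log_mul (by norm_num) (by positivity), Real.log_pow]

end Pool.Agent.R813.EQ
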