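import Mathlib
import Pool.Agent.R813.EQ.Coll

set_option autoImplicit false

/-! Definitions and the main theorem. -/

namespace Pool.Agent.R813.EQ

open Finset Equiv Filter Topology

/-- The mass function of the push-forward of the uniform measure on `S_n ^ r` under the word map of
the tuple `w`. -/
noncomputable def wordLaw {r d : ℕ} (w : Fin d → FreeGroup (Fin r)) (n : ℕ)
    (s : Fin d → Perm (Fin n)) : ℝ :=
  (Fintype.card {x : Fin r → Perm (Fin n) // ∀ i, FreeGroup.lift x (w i) = s i} : ℝ) /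
    Fintype.card (Fin r → Perm (Fin n))

/-- The mass function of the uniform measure on `S_n ^ d`. -/
noncomputable def uniformLaw (d n : ℕ) (_ : Fin d → Perm (Fin n)) : ℝ :=
  1 / Fintype.card (Fin d → Perm (Fin n))

/-- The normalised Hamming metric on `S_n`. -/
noncomputable def hamming {n : ℕ} (σ τ : Perm (Fin n)) : ℝ :=
  (Fintype.card {i : Fin n // σ i ≠ τ i} : ℝ) / n

/-- `γ` is a coupling of `μ` and `ν`: a nonnegative function with marginals `μ` and `ν`. -/
def IsCoupling {X : Type} [Fintype X] (γ : X → X → ℝ) (μ ν : X → ℝ) : Prop :=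
  (∀ s t, 0 ≤ γ s t) ∧ (∀ s, ∑ t, γ s t = μ s) ∧ (∀ t, ∑ s, γ s t = ν t)

/-- The expected distance of a coupling, `S_n ^ d` with the sum of the Hamming distances. -/
noncomputable def cost {d n : ℕ} (γ : (Fin d → Perm (Fin n)) → (Fin d → Perm (Fin n)) → ℝ) : ℝ :=
  ∑ s, ∑ t, γ s t * ∑ i, hamming (s i) (t i)

/-- The Kantorovich-Rubinstein distance: the infimum of the costs of all couplings. -/
noncomputable def kantorovich {d n : ℕ} (μ ν : (Fin d → Perm (Fin n)) → ℝ) : ℝ :=
  sInf {t | ∃ γ, IsCoupling γ μ ν ∧ t = cost γ}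

/-- The tuple `w` is simultaneously asymptotically equidistributed. -/
def SAE {r d : ℕ} (w : Fin d → FreeGroup (Fin r)) : Prop :=
  Tendsto (fun n => kantorovich (wordLaw w n) (uniformLaw d n)) atTop (𝓝 0)

theorem hamming_nonneg {n : ℕ} (σ τ : Perm (Fin n)) : 0 ≤ hamming σ τ := by
  unfold hamming; positivity

theorem hamming_le {n : ℕ} (σ τ : Perm (Fin n)) : hamming σ τ ≤ 1 := by
  unfold hamming
  rcases Nat.eq_zero_or_pos n with h | h
  · subst h; simp
  · rw [div_le_one (by exact_mod_cast h)]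
    have := Fintype.card_subtype_le (fun i : Fin n => σ i ≠ τ i)
    rw [Fintype.card_fin] at this
    exact_mod_cast this

theorem hamming_eq {n : ℕ} (σ τ : Perm (Fin n)) : hamming σ τ = (ham σ τ : ℝ) / n := by
  unfold hamming ham
  rw [Fintype.card_subtype]

theorem kantorovich_le {d n : ℕ} {μ ν : (Fin d → Perm (Fin n)) → ℝ}
    {γ : (Fin d → Perm (Fin n)) → (Fin d → Perm (Fin n)) → ℝ} (h : IsCoupling γ μ ν) :
    0 ≤ kantorovich μ ν ∧ kantorovich μ ν ≤ cost γ := by
  have h0 : ∀ t ∈ {t | ∃ γ, IsCoupling γ μ ν ∧ t = cost γ}, 0 ≤ t := by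
    rintro t ⟨γ, hγ, rfl⟩
    exact sum_nonneg fun s _ => sum_nonneg fun t _ => mul_nonneg (hγ.1 s t)
      (sum_nonneg fun i _ => hamming_nonneg _ _)
  exact ⟨Real.sInf_nonneg h0, csInf_le ⟨0, h0⟩ ⟨γ, h, rfl⟩⟩

theorem TC_pair (n : ℕ) : TC (Fin 2 → Perm (Fin n)) (fun s t => ∑ i, (ham (s i) (t i) : ℝ))
    (3 * n) (3 / 2) := by
  have h1 := TC.perm n (TC.perm n (TC.unit (3 / 2)) le_rfl) le_rfl
  have h2 := h1.congr (X' := Fin 2 → Perm (Fin n))
    (c' := fun s t => ∑ i, (ham (s i) (t i) : ℝ))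
    ((finTwoArrowEquiv _).trans (Equiv.prodCongr (Equiv.refl _) (Equiv.prodPUnit _).symm)) (by
      intro s t
      rw [Fin.sum_univ_two]
      simp)
  have e : (3 : ℝ) * n = 0 + 3 / 2 * n + 3 / 2 * n := by ring
  rw [e]
  exact h2

/-- The pair of words. -/
def W (k l m : ℤ) : Fin 2 → FreeGroup (Fin 2) :=
  ![FreeGroup.of 0, FreeGroup.of 1 ^ k * FreeGroup.of 0 ^ m * FreeGroup.of 1 ^ l]

theorem wordLaw_eq (k l m : ℤ) (n : ℕ) : wordLaw (W k l m) n = lw univ (FF k l m) := by
  classical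
  funext s
  unfold wordLaw lw
  rw [card_univ, Fintype.card_subtype]
  congr 3
  ext x
  simp only [mem_filter, mem_univ, true_and]
  have e : ∀ i, FreeGroup.lift x (W k l m i) = FF k l m x i := by
    intro i
    fin_cases i
    · simp [W, FF]
    · simp [W, FF]
  simp only [e]
  exact ⟨fun h => funext h, fun h i => congrFun h i⟩

/-- the pairs of permutations -/
abbrev XX (n : ℕ) := Fin 2 → Perm (Fin n)

theorem coupling_exists {n : ℕ} (hn : 1 ≤ n) (k l m : ℤ) (hm : m ≠ 0) (hkl : k ≠ 0 ∨ l ≠ 0)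
    (L s : ℕ) (hs : n < s * s) {δ : ℝ} (hδ : δ ≤ 1 / 2)
    (hT : (1 - δ) * n.factorial ≤ (TT n L).card) {lam : ℝ} (hl : 0 < lam) :
    ∃ γ, IsCoupling γ (wordLaw (W k l m) n) (uniformLaw 2 n) ∧
      cost γ ≤ 3 * lam + 3 / 2 * ((Real.log 16 +
        (((k.natAbs + l.natAbs + m.natAbs) * L + 2 * s : ℕ) : ℝ) * Real.log (n + 1)) / n) / lam +
        4 * δ := by
  classical
  have hf : (0 : ℝ) < n.factorial := by exact_mod_cast n.factorial_pos
  have hn' : (0 : ℝ) < n := by exact_mod_cast hn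
  have hT2 : (n.factorial : ℝ) / 2 ≤ (TT n L).card := by nlinarith
  have hT0 : (0 : ℝ) < (TT n L).card := by linarith
  have hS : (SS n L).Nonempty := by
    rw [← card_pos, card_SS]
    have : 0 < (TT n L).card := by exact_mod_cast hT0
    positivity
  have hent := ent_bound hn k l m hm hkl L s hs hT2
  set E := Real.log 16 + (((k.natAbs + l.natAbs + m.natAbs) * L + 2 * s : ℕ) : ℝ) *
    Real.log (n + 1) with hE
  obtain ⟨γ, g0, g1, g2, g3⟩ := TC_pair n (lw (SS n L) (FF k l m)) (lw_nonneg _ _)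
    (lw_sum hS _) lam hl
  have hcX : (Fintype.card (XX n) : ℝ) = (n.factorial : ℝ) ^ 2 := by
    show (Fintype.card (Fin 2 → Perm (Fin n)) : ℝ) = _
    rw [Fintype.card_fun, Fintype.card_fin, Fintype.card_perm, Fintype.card_fin]; push_cast; rfl
  have hX0 : (0 : ℝ) < Fintype.card (XX n) := by rw [hcX]; positivity
  set ρ : ℝ := (SS n L).card / Fintype.card (XX n) with hρ
  have hSle : ((SS n L).card : ℝ) ≤ Fintype.card (XX n) := by
    have := card_le_univ (SS n L)
    exact_mod_cast this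
  have hρ0 : 0 ≤ ρ := by positivity
  have hρ1 : ρ ≤ 1 := by rw [hρ, div_le_one hX0]; exact hSle
  have hρ2 : 1 - ρ ≤ 2 * δ := by
    have hT1 : ((TT n L).card : ℝ) ≤ n.factorial := by
      have := card_le_univ (TT n L)
      rw [Fintype.card_perm, Fintype.card_fin] at this
      exact_mod_cast this
    have h1 : (1 - 2 * δ) ≤ ρ := by
      rw [hρ, le_div_iff₀ hX0, hcX, card_SS]
      push_cast
      rcases le_total 0 (1 - δ) with h | h
      · have h2 : ((1 - δ) * n.factorial) ^ 2 ≤ ((TT n L).card : ℝ) ^ 2 :=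
          pow_le_pow_left₀ (by positivity) hT 2
        have h3 : (1 - 2 * δ) * (n.factorial : ℝ) ^ 2 ≤ ((1 - δ) * n.factorial) ^ 2 := by
          have : (1 - 2 * δ) ≤ (1 - δ) ^ 2 := by nlinarith [sq_nonneg δ]
          rw [mul_pow]
          exact mul_le_mul_of_nonneg_right this (by positivity)
        linarith
      · exfalso; linarith
    linarith
  set r : (XX n) → ℝ := fun s => lw univ (FF k l m) s - ρ * lw (SS n L) (FF k l m) s with hr
  have hr0 : ∀ s, 0 ≤ r s := by
    intro s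
    have hSc : (0 : ℝ) < (SS n L).card := by exact_mod_cast hS.card_pos
    have h1 : ρ * lw (SS n L) (FF k l m) s =
        (((SS n L).filter (fun ω => FF k l m ω = s)).card : ℝ) / Fintype.card (XX n) := by
      unfold lw; rw [hρ]; field_simp
    simp only [hr, h1]
    unfold lw
    rw [card_univ, ← sub_div]
    refine div_nonneg ?_ hX0.le
    have := card_le_card (filter_subset_filter (fun ω => FF k l m ω = s) (subset_univ (SS n L)))
    rw [sub_nonneg]
    exact_mod_cast this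
  have hrs : ∑ s, r s = 1 - ρ := by
    simp only [hr]
    rw [sum_sub_distrib, ← mul_sum, lw_sum hS, lw_sum univ_nonempty, mul_one]
  refine ⟨fun s t => ρ * γ s t + r s / Fintype.card (XX n), ⟨fun s t => ?_, fun s => ?_, fun t => ?_⟩, ?_⟩
  · exact add_nonneg (mul_nonneg hρ0 (g0 s t)) (div_nonneg (hr0 s) hX0.le)
  · rw [sum_add_distrib, ← mul_sum, g1, sum_const, card_univ, nsmul_eq_mul, wordLaw_eq]
    simp only [hr]
    field_simp
    ring
  · rw [sum_add_distrib, ← mul_sum, g2, ← sum_div, hrs]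
    unfold uniformLaw
    field_simp
    ring
  · unfold cost
    have hD : ∀ s t : (XX n), ∑ i, hamming (s i) (t i) = (∑ i, (ham (s i) (t i) : ℝ)) / n := by
      intro s t
      rw [sum_div]
      exact sum_congr rfl fun i _ => hamming_eq _ _
    have hD2 : ∀ s t : (XX n), ∑ i, hamming (s i) (t i) ≤ 2 := by
      intro s t
      calc ∑ i, hamming (s i) (t i) ≤ ∑ _i : Fin 2, (1 : ℝ) := sum_le_sum fun i _ => hamming_le _ _
        _ = 2 := by simp
    have e1 : ∑ s : (XX n), ∑ t : (XX n), (ρ * γ s t + r s / Fintype.card (XX n)) * ∑ i, hamming (s i) (t i) =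
        ρ * ((∑ s : (XX n), ∑ t : (XX n), γ s t * ∑ i, (ham (s i) (t i) : ℝ)) / n) +
        ∑ s : (XX n), ∑ t : (XX n), r s / Fintype.card (XX n) * ∑ i, hamming (s i) (t i) := by
      rw [sum_div, mul_sum, ← sum_add_distrib]
      refine sum_congr rfl fun s _ => ?_
      rw [sum_div, mul_sum, ← sum_add_distrib]
      refine sum_congr rfl fun t _ => ?_
      rw [add_mul]
      congr 1
      rw [hD]; ring
    rw [e1]
    have e2 : ∑ s : (XX n), ∑ t : (XX n), r s / Fintype.card (XX n) * ∑ i, hamming (s i) (t i) ≤ 4 * δ := by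
      calc ∑ s : (XX n), ∑ t : (XX n), r s / Fintype.card (XX n) * ∑ i, hamming (s i) (t i)
          ≤ ∑ s : (XX n), ∑ _t : (XX n), r s / Fintype.card (XX n) * 2 :=
            sum_le_sum fun s _ => sum_le_sum fun t _ => mul_le_mul_of_nonneg_left (hD2 s t)
              (div_nonneg (hr0 s) hX0.le)
        _ = 2 * ∑ s, r s := by
            rw [mul_sum]
            refine sum_congr rfl fun s _ => ?_
            rw [sum_const, card_univ, nsmul_eq_mul]
            field_simp
        _ ≤ 4 * δ := by rw [hrs]; linarith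
    have e3 : (∑ s : (XX n), ∑ t : (XX n), γ s t * ∑ i, (ham (s i) (t i) : ℝ)) / n ≤
        3 * lam + 3 / 2 * (E / n) / lam := by
      rw [div_le_iff₀ hn']
      refine g3.trans ?_
      have h5 : 3 / 2 * ent (lw (SS n L) (FF k l m)) / lam ≤ 3 / 2 * E / lam := by gcongr
      have h6 : (3 * lam + 3 / 2 * (E / n) / lam) * n = 3 * n * lam + 3 / 2 * E / lam := by
        field_simp
      rw [h6]; linarith
    have e4 : 0 ≤ (∑ s : (XX n), ∑ t : (XX n), γ s t * ∑ i, (ham (s i) (t i) : ℝ)) / n := by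
      refine div_nonneg (sum_nonneg fun s _ => sum_nonneg fun t _ => mul_nonneg (g0 s t)
        (sum_nonneg fun i _ => Nat.cast_nonneg _)) hn'.le
    have e5 : ρ * ((∑ s : (XX n), ∑ t : (XX n), γ s t * ∑ i, (ham (s i) (t i) : ℝ)) / n) ≤
        3 * lam + 3 / 2 * (E / n) / lam := by
      refine le_trans ?_ e3
      calc _ ≤ 1 * ((∑ s : (XX n), ∑ t : (XX n), γ s t * ∑ i, (ham (s i) (t i) : ℝ)) / n) :=
            mul_le_mul_of_nonneg_right hρ1 e4
        _ = _ := one_mul _
    linarith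

theorem TT_large (n : ℕ) : (1 - (1 + Real.log n) / (Nat.sqrt n + 1)) * n.factorial ≤
    (TT n (Nat.sqrt n)).card := by
  classical
  set L := Nat.sqrt n with hL
  have h1 : ((univ.filter (fun y : Perm (Fin n) => ¬ cyc n y ≤ L)).card) * (L + 1) ≤
      ∑ y : Perm (Fin n), cyc n y := by
    calc _ = ∑ y ∈ univ.filter (fun y : Perm (Fin n) => ¬ cyc n y ≤ L), (L + 1) := by
          rw [sum_const, smul_eq_mul]
      _ ≤ ∑ y ∈ univ.filter (fun y : Perm (Fin n) => ¬ cyc n y ≤ L), cyc n y :=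
          sum_le_sum fun y hy => by have := (mem_filter.1 hy).2; omega
      _ ≤ _ := sum_le_sum_of_subset (filter_subset _ _)
  have h2 : ((∑ y : Perm (Fin n), cyc n y : ℕ) : ℝ) ≤ n.factorial * (1 + Real.log n) := by
    have h3 := sum_cyc n
    have h4 : ((∑ y : Perm (Fin n), cyc n y : ℕ) : ℝ) = n.factorial * ((harmonic n : ℚ) : ℝ) := by
      have h5 := congrArg (fun q : ℚ => (q : ℝ)) h3
      push_cast at h5 ⊢
      exact h5
    rw [h4]
    exact mul_le_mul_of_nonneg_left (harmonic_le_one_add_log n) (Nat.cast_nonneg _)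
  have h3 : (univ.filter (fun y : Perm (Fin n) => ¬ cyc n y ≤ L)).card + (TT n L).card =
      n.factorial := by
    have h0 := card_union_of_disjoint (disjoint_filter_filter_not (univ : Finset (Perm (Fin n))) univ
      (fun y => cyc n y ≤ L))
    rw [filter_union_filter_not_eq, card_univ, Fintype.card_perm, Fintype.card_fin] at h0
    unfold TT
    omega
  have h4 : (0 : ℝ) < (L : ℝ) + 1 := by positivity
  have h5 : (((univ.filter (fun y : Perm (Fin n) => ¬ cyc n y ≤ L)).card : ℕ) : ℝ) * (L + 1) ≤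
      n.factorial * (1 + Real.log n) := by
    refine le_trans ?_ h2
    exact_mod_cast h1
  have h6 : (((univ.filter (fun y : Perm (Fin n) => ¬ cyc n y ≤ L)).card : ℕ) : ℝ) +
      (TT n L).card = n.factorial := by exact_mod_cast h3
  have h7 : (((univ.filter (fun y : Perm (Fin n) => ¬ cyc n y ≤ L)).card : ℕ) : ℝ) ≤
      (1 + Real.log n) / (L + 1) * n.factorial := by
    rw [div_mul_eq_mul_div, le_div_iff₀ h4]
    linarith
  linarith

theorem main (k l m : ℤ) (hm : m ≠ 0) (hkl : k ≠ 0 ∨ l ≠ 0) : SAE (W k l m) := by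
  have hlog : Tendsto (fun n : ℕ => Real.log ((n : ℝ) + 1) / ((n : ℝ) + 1) ^ (1 / 2 : ℝ)) atTop
      (𝓝 0) := by
    have h1 := (isLittleO_log_rpow_atTop (r := 1 / 2) (by norm_num)).tendsto_div_nhds_zero
    exact h1.comp (tendsto_atTop_add_const_right _ _ tendsto_natCast_atTop_atTop)
  have hsq : ∀ n : ℕ, (Nat.sqrt n : ℝ) ≤ ((n : ℝ) + 1) ^ (1 / 2 : ℝ) := by
    intro n
    rw [← Real.sqrt_eq_rpow]
    refine Real.le_sqrt_of_sq_le ?_
    have : Nat.sqrt n ^ 2 ≤ n := Nat.sqrt_le' n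
    have h2 : ((Nat.sqrt n : ℝ)) ^ 2 ≤ n := by exact_mod_cast this
    linarith
  have hsq2 : ∀ n : ℕ, ((n : ℝ) + 1) ^ (1 / 2 : ℝ) ≤ Nat.sqrt n + 1 := by
    intro n
    rw [← Real.sqrt_eq_rpow, Real.sqrt_le_left (by positivity)]
    have : n < (Nat.sqrt n + 1) ^ 2 := Nat.lt_succ_sqrt' n
    have h2 : n + 1 ≤ (Nat.sqrt n + 1) ^ 2 := this
    exact_mod_cast h2
  set a := k.natAbs + l.natAbs + m.natAbs with ha
  set E : ℕ → ℝ := fun n => (Real.log 16 + ((a * Nat.sqrt n + 2 * (Nat.sqrt n + 1) : ℕ) : ℝ) *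
    Real.log (n + 1)) / n with hE
  set δ : ℕ → ℝ := fun n => (1 + Real.log n) / (Nat.sqrt n + 1) with hδ
  have hrpow : Tendsto (fun n : ℕ => ((n : ℝ) + 1) ^ (1 / 2 : ℝ)) atTop atTop :=
    (tendsto_rpow_atTop (by norm_num)).comp
      (tendsto_atTop_add_const_right _ _ tendsto_natCast_atTop_atTop)
  have hδlim : Tendsto δ atTop (𝓝 0) := by
    have h1 : Tendsto (fun n : ℕ => 1 / ((n : ℝ) + 1) ^ (1 / 2 : ℝ) +
        Real.log ((n : ℝ) + 1) / ((n : ℝ) + 1) ^ (1 / 2 : ℝ)) atTop (𝓝 0) := by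
      have := (tendsto_const_nhds (x := (1 : ℝ))).div_atTop hrpow
      simpa using this.add hlog
    refine squeeze_zero' ?_ ?_ h1
    · filter_upwards [eventually_ge_atTop 1] with n hn
      have : 0 ≤ Real.log n := Real.log_natCast_nonneg n
      simp only [hδ]; positivity
    · filter_upwards [eventually_ge_atTop 1] with n hn
      have hn' : (1 : ℝ) ≤ n := by exact_mod_cast hn
      have h2 : 0 ≤ Real.log n := Real.log_natCast_nonneg n
      have h3 : Real.log n ≤ Real.log (n + 1) := Real.log_le_log (by linarith) (by linarith)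
      rw [← add_div]
      simp only [hδ]
      have h4 : (0 : ℝ) < ((n : ℝ) + 1) ^ (1 / 2 : ℝ) := by positivity
      exact div_le_div₀ (by linarith) (by linarith) h4 (hsq2 n)
  have hElim : Tendsto E atTop (𝓝 0) := by
    have h1 : Tendsto (fun n : ℕ => Real.log 16 / (n : ℝ) + ((a + 4 : ℕ) : ℝ) * (2 *
        (Real.log ((n : ℝ) + 1) / ((n : ℝ) + 1) ^ (1 / 2 : ℝ)))) atTop (𝓝 0) := by
      have h2 := (tendsto_const_nhds (x := Real.log 16)).div_atTop tendsto_natCast_atTop_atTop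
      have h3 := (hlog.const_mul 2).const_mul ((a + 4 : ℕ) : ℝ)
      simpa using h2.add h3
    refine squeeze_zero' ?_ ?_ h1
    · filter_upwards [eventually_ge_atTop 1] with n hn
      have h2 : 0 ≤ Real.log ((n : ℝ) + 1) := Real.log_nonneg (by linarith [Nat.cast_nonneg (α := ℝ) n])
      have h3 : 0 ≤ Real.log 16 := Real.log_nonneg (by norm_num)
      simp only [hE]; positivity
    · filter_upwards [eventually_ge_atTop 1] with n hn
      have hn' : (1 : ℝ) ≤ n := by exact_mod_cast hn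
      simp only [hE]
      rw [add_div]
      refine add_le_add le_rfl ?_
      have h2 : 0 ≤ Real.log ((n : ℝ) + 1) := Real.log_nonneg (by linarith)
      set x := ((n : ℝ) + 1) ^ (1 / 2 : ℝ) with hx
      have hx0 : 0 < x := by positivity
      have hxx : x * x = (n : ℝ) + 1 := by
        rw [hx, ← Real.sqrt_eq_rpow, Real.mul_self_sqrt (by positivity)]
      have h3 : ((a * Nat.sqrt n + 2 * (Nat.sqrt n + 1) : ℕ) : ℝ) ≤ ((a + 4 : ℕ) : ℝ) * x := by
        have h4 := hsq n
        have h5 : 1 ≤ x := Real.one_le_rpow (by linarith) (by norm_num)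
        push_cast
        have h6 : (a : ℝ) * Nat.sqrt n ≤ a * x := mul_le_mul_of_nonneg_left h4 (Nat.cast_nonneg _)
        linarith
      rw [div_le_iff₀ (by linarith)]
      have h7 : Real.log ((n : ℝ) + 1) / x * (n : ℝ) * 2 ≥ Real.log ((n : ℝ) + 1) * x := by
        rw [ge_iff_le, div_mul_eq_mul_div, div_mul_eq_mul_div, le_div_iff₀ hx0]
        have : x * x ≤ 2 * n := by rw [hxx]; linarith
        nlinarith
      calc ((a * Nat.sqrt n + 2 * (Nat.sqrt n + 1) : ℕ) : ℝ) * Real.log (n + 1)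
          ≤ (((a + 4 : ℕ) : ℝ) * x) * Real.log (n + 1) := mul_le_mul_of_nonneg_right h3 h2
        _ = ((a + 4 : ℕ) : ℝ) * (Real.log ((n : ℝ) + 1) * x) := by ring
        _ ≤ ((a + 4 : ℕ) : ℝ) * (Real.log ((n : ℝ) + 1) / x * (n : ℝ) * 2) :=
          mul_le_mul_of_nonneg_left h7 (Nat.cast_nonneg _)
        _ = _ := by ring
  unfold SAE
  rw [Metric.tendsto_atTop]
  intro ε hε
  have h1 : ∀ᶠ n in atTop, E n < ε / 18 * (ε / 12) * 2 := by
    have := hElim.eventually (gt_mem_nhds (show (0 : ℝ) < ε / 18 * (ε / 12) * 2 by positivity))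
    exact this
  have h2 : ∀ᶠ n in atTop, δ n < min (1 / 2) (ε / 24) :=
    hδlim.eventually (gt_mem_nhds (by positivity))
  obtain ⟨N, hN⟩ := eventually_atTop.1 ((h1.and h2).and (eventually_ge_atTop 1))
  refine ⟨N, fun n hn => ?_⟩
  obtain ⟨⟨h3, h4⟩, h5⟩ := hN n hn
  obtain ⟨γ, hγ, hc⟩ := coupling_exists h5 k l m hm hkl (Nat.sqrt n) (Nat.sqrt n + 1)
    (Nat.lt_succ_sqrt n) (δ := δ n) (h4.le.trans (min_le_left _ _)) (TT_large n)
    (lam := ε / 12) (by positivity)
  obtain ⟨k1, k2⟩ := kantorovich_le hγ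
  rw [Real.dist_eq, sub_zero, abs_of_nonneg k1]
  refine lt_of_le_of_lt (k2.trans hc) ?_
  have h6 : δ n < ε / 24 := h4.trans_le (min_le_right _ _)
  have h7 : 3 / 2 * E n / (ε / 12) < ε / 6 := by
    rw [div_lt_iff₀ (by positivity)]
    linarith
  have h8 : 3 / 2 * ((Real.log 16 +
        (((k.natAbs + l.natAbs + m.natAbs) * Nat.sqrt n + 2 * (Nat.sqrt n + 1) : ℕ) : ℝ) *
          Real.log (n + 1)) / n) / (ε / 12) = 3 / 2 * E n / (ε / 12) := rfl
  rw [h8]
  linarith

end Pool.Agent.R813.EQ
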